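import Pool.Agent.Run7.h768.CMMain

/-!
Whether the closure of a Springer cell `C_w ∩ S_X` is Cohen-Macaulay, and whether it is Gorenstein,
encodes the solvability over `ℂ` of arbitrary systems of polynomial equations, for a fixed
permutation `w` and strictly upper triangular matrices `X` in one nilpotent orbit, polynomial in the
coefficients of the equations.
-/

namespace Pool.Agent.Results.MP_1e2f52_ag.CohenMacaulayEncodesSystems

open Pool.Agent.Run7.h768

theorem result (q d c : ℕ) :
    ∃ (n : ℕ) (w : Equiv.Perm (Fin n))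
      (X : Matrix (Fin n) (Fin n) (MvPolynomial (Fin c × (Fin q → Fin (d + 1))) ℤ)),
      (∀ a a' : Fin c × (Fin q → Fin (d + 1)) → ℂ, ∃ g : GL (Fin n) ℂ,
        special X a' = g.1 * special X a * (g⁻¹ : GL (Fin n) ℂ).1) ∧
      ∀ a : Fin c × (Fin q → Fin (d + 1)) → ℂ,
        (∀ i j, j ≤ i → special X a i j = 0) ∧
        ((permMat w : GL (Fin n) ℂ) : Flag n) ∈ SpringerFiber (special X a) ∧
        (IsCM (cellClosure w (special X a)) ↔
          ¬ ∃ x : Fin q → ℂ, ∀ l : Fin c, polyVal (fun α => a (l, α)) x = 0) ∧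
        (IsGorenstein (cellClosure w (special X a)) ↔
          ¬ ∃ x : Fin q → ℂ, ∀ l : Fin c, polyVal (fun α => a (l, α)) x = 0) :=
  cm_main q d c

end Pool.Agent.Results.MP_1e2f52_ag.CohenMacaulayEncodesSystems
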